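import Pool.Agent.Helper91.PL.NUa
import Pool.Agent.Helper52.Tao.MX2

/-!
# The densities of the limit law form a Cauchy sequence, with the rate `C / k`

Copy of `Helper91/PL/NUb.lean` (block PL-NUb of helper91) with public names, without `nu_cauchy`: only `D_le`
is used here.

Claim (*): there is `C` with `∑_{c < m^K} |nu K c - nu k c / m ^ (K - k)| ≤ C / k` for
`1 ≤ k ≤ K ≤ k ^ 2`. Take `t = 10 K`. Let `a_S(c, j) = cW d t (sg w = S ∧ m ^ j ∣ c - F w)`, where `e`
is an inverse of `d` modulo `m ^ t` (`exists_e`); for `j ≤ S` the condition is equivalent to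
`Hit j c w` (`F_modEq`; see `hcong` in the proof of `card_image`, file Helper52/Tao/D0). So
`d ^ t * nut t K c = ∑_{S ≥ K} a_S(c, K)`, `d ^ t * nut t k c = ∑_{S ≥ k} a_S(c, k)`. By `Mixing` with
`A = 4` (here `Osc d m r e t S K k = ∑_c |a_S(c, K) - a_S(c, k) / m ^ (K - k)|`, `S ≥ K`), summing over
the at most `t + 1` values `S ≥ K`, the error is `≤ (10 K + 1) C k ^ (-4)`; the words with
`k ≤ sg w < K` contribute `≤ (9 / 10) ^ t` (`few_nonzero`, and `MX2.sum_p_lift`); the differences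
`nu - nut` contribute `≤ 2 (9 / 10) ^ t` (`sum_nu_sub_nut_le`).
Iteration: for `2 ≤ k ≤ K` the left side of (*) is `≤ 2 C / k`: by induction on `K - k`; if `K > k ^ 2`
pass through `k ^ 2` (triangle inequality, as in `MX2.Osc_triangle`), `C / k + 2 C / k ^ 2 ≤ 2 C / k`.
-/

set_option autoImplicit false

namespace Pool.Agent.Helper30.PP

open Pool.Agent.Helper68.Moeller Pool.Agent.Helper52.Tao Pool.Agent.Helper8.ND
  Pool.Agent.Helper8.CL Pool.Agent.Helper91.PL Filter Topology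

variable {d m : ℕ} {r : ℤ → ℤ}

namespace NUb

open Pool.Agent.Helper52.Tao.MX2

theorem hit_iff {e : ℤ} {t j : ℕ} (he : (m : ℤ) ^ t ∣ (d : ℤ) * e - 1) (hj : j ≤ t)
    {w : List ℕ} (hw : w ∈ W d t) (y : ℤ) :
    Hit d m r j y w ↔ (m : ℤ) ^ j ∣ y - F m r e w := by
  have hlen := length_of_mem_W hw
  have hst : (m : ℤ) ^ j ∣ (m : ℤ) ^ t := pow_dvd_pow _ hj
  have h1 : (m : ℤ) ^ j ∣ F m r e w + e ^ t * Off d m r w := by
    have := F_modEq (m := m) (r := r) he w
    rw [hlen] at this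
    exact hst.trans this
  have h2 : (m : ℤ) ^ j ∣ (d : ℤ) ^ t * e ^ t - 1 := by
    rw [← mul_pow]
    exact hst.trans (he.trans (by simpa using sub_dvd_pow_sub_pow ((d : ℤ) * e) 1 t))
  unfold Hit
  rw [hlen]
  constructor
  · intro h
    have h3 : y - F m r e w = e ^ t * ((d : ℤ) ^ t * y + Off d m r w) -
        ((d : ℤ) ^ t * e ^ t - 1) * y - (F m r e w + e ^ t * Off d m r w) := by ring
    rw [h3]
    exact _root_.dvd_sub (_root_.dvd_sub (h.mul_left _) (h2.mul_right _)) h1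
  · intro h
    have h3 : (d : ℤ) ^ t * y + Off d m r w = (d : ℤ) ^ t * (y - F m r e w) +
        (d : ℤ) ^ t * (F m r e w + e ^ t * Off d m r w) -
          ((d : ℤ) ^ t * e ^ t - 1) * Off d m r w := by ring
    rw [h3]
    exact _root_.dvd_sub (dvd_add (h.mul_left _) (h1.mul_left _)) (h2.mul_right _)

theorem cW_split (t K : ℕ) (Q : List ℕ → Prop) :
    cW d t (fun w => K ≤ sg w ∧ Q w) =
      ∑ S ∈ Finset.Icc K t, cW d t (fun w => sg w = S ∧ Q w) := by
  classical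
  rw [cW_eq_sum]
  simp_rw [cW_eq_sum]
  rw [Finset.sum_comm]
  refine Finset.sum_congr rfl fun w hw => ?_
  have hle : sg w ≤ t := length_of_mem_W hw ▸ sg_le_length w
  by_cases hQ : Q w
  · simp only [hQ, and_true]
    rw [Finset.sum_ite_eq]
    simp [Finset.mem_Icc, hle]
  · simp [hQ]

theorem sum_cW_le (e : ℤ) (t j : ℕ) (P : List ℕ → Prop) :
    ∑ X ∈ Finset.range (m ^ j),
      cW d t (fun w => P w ∧ (m : ℤ) ^ j ∣ (X : ℤ) - F m r e w) ≤ cW d t P := by
  classical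
  simp_rw [cW_eq_sum]
  rw [Finset.sum_comm]
  refine Finset.sum_le_sum fun w _ => ?_
  by_cases hP : P w
  · simp only [hP, true_and, if_true]
    rw [Finset.sum_boole]
    have h3 : ((Finset.range (m ^ j)).filter
        (fun X : ℕ => (m : ℤ) ^ j ∣ (X : ℤ) - F m r e w)).card ≤ 1 := by
      rw [Finset.card_le_one]
      intro X hX Y hY
      rw [Finset.mem_filter, Finset.mem_range] at hX hY
      have h4 : (m : ℤ) ^ j ∣ (X : ℤ) - Y := by
        have := dvd_sub hX.2 hY.2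
        have h5 : (X : ℤ) - F m r e w - ((Y : ℤ) - F m r e w) = (X : ℤ) - Y := by ring
        rwa [h5] at this
      have hX1 : (X : ℤ) < (m : ℤ) ^ j := by exact_mod_cast hX.1
      have hY1 : (Y : ℤ) < (m : ℤ) ^ j := by exact_mod_cast hY.1
      have h6 : (X : ℤ) - Y = 0 := by
        apply Int.eq_zero_of_abs_lt_dvd h4
        rw [abs_lt]
        constructor <;> omega
      omega
    exact_mod_cast h3
  · simp [hP]

theorem nu_per {k j : ℕ} (h : k ≤ j) (X : ℕ) :
    nu d m r k ((X + m ^ j : ℕ) : ℤ) = nu d m r k (X : ℤ) := by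
  apply nu_congr
  have : ((X + m ^ j : ℕ) : ℤ) - (X : ℤ) = (m : ℤ) ^ j := by push_cast; ring
  rw [this]
  exact pow_dvd_pow _ h

theorem nut_per {t k j : ℕ} (h : k ≤ j) (X : ℕ) :
    nut d m r t k ((X + m ^ j : ℕ) : ℤ) = nut d m r t k (X : ℤ) := by
  apply nut_congr
  have : ((X + m ^ j : ℕ) : ℤ) - (X : ℤ) = (m : ℤ) ^ j := by push_cast; ring
  rw [this]
  exact pow_dvd_pow _ h

/-- the words with `k ≤ sg w < K` -/
noncomputable def q (d m : ℕ) (r : ℤ → ℤ) (e : ℤ) (t k K X : ℕ) : ℝ :=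
  cW d t (fun w => (k ≤ sg w ∧ sg w < K) ∧ (m : ℤ) ^ k ∣ (X : ℤ) - F m r e w)

theorem q_nonneg (e : ℤ) (t k K X : ℕ) : 0 ≤ q d m r e t k K X := cW_nonneg _ _ _

theorem q_per (e : ℤ) (t k K X : ℕ) :
    q d m r e t k K (X + m ^ k) = q d m r e t k K X := by
  unfold q
  refine cW_congr fun w _ => ?_
  have h2 : ((X + m ^ k : ℕ) : ℤ) - F m r e w = ((X : ℤ) - F m r e w) + (m : ℤ) ^ k := by
    push_cast; ring
  rw [h2, dvd_add_left (dvd_refl _)]

theorem sum_q_le (hd : 2 ≤ d) (hm : 0 < m) (e : ℤ) {t k K : ℕ} (hkK : k ≤ K)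
    (ht : 5 * K ≤ t) :
    ∑ X ∈ Finset.range (m ^ K), q d m r e t k K X / (m : ℝ) ^ (K - k) ≤
      (d : ℝ) ^ t * (9 / 10) ^ t := by
  rw [sum_p_lift hm hkK (fun X => q d m r e t k K X) (q_per e t k K)]
  unfold q
  refine (sum_cW_le e t k _).trans ?_
  refine le_trans (cW_mono fun w _ h => h.2) (few_nonzero hd ht)

theorem nut_K {e : ℤ} {t K : ℕ} (he : (m : ℤ) ^ t ∣ (d : ℤ) * e - 1) (hK : K ≤ t) (X : ℕ) :
    nut d m r t K (X : ℤ) = (∑ S ∈ Finset.Icc K t, p d m r e t S K X) / (d : ℝ) ^ t := by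
  unfold nut
  congr 1
  rw [cW_congr (Q := fun w => K ≤ sg w ∧ (m : ℤ) ^ K ∣ (X : ℤ) - F m r e w), cW_split]
  · rfl
  · intro w hw
    rw [hit_iff he hK hw]

theorem nut_k {e : ℤ} {t k K : ℕ} (he : (m : ℤ) ^ t ∣ (d : ℤ) * e - 1) (hkK : k ≤ K)
    (hK : K ≤ t) (X : ℕ) :
    nut d m r t k (X : ℤ) =
      (∑ S ∈ Finset.Icc K t, p d m r e t S k X + q d m r e t k K X) / (d : ℝ) ^ t := by
  classical
  unfold nut
  congr 1
  have h1 : ∑ S ∈ Finset.Icc K t, p d m r e t S k X =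
      cW d t (fun w => K ≤ sg w ∧ (m : ℤ) ^ k ∣ (X : ℤ) - F m r e w) := by
    rw [cW_split]
    rfl
  rw [h1]
  unfold q
  rw [cW_eq_sum, cW_eq_sum, cW_eq_sum, ← Finset.sum_add_distrib]
  refine Finset.sum_congr rfl fun w hw => ?_
  have h2 := hit_iff (r := r) he (hkK.trans hK) hw (X : ℤ)
  by_cases h3 : (m : ℤ) ^ k ∣ (X : ℤ) - F m r e w
  · by_cases h4 : K ≤ sg w
    · have h5 : k ≤ sg w := hkK.trans h4
      have h6 : ¬ sg w < K := not_lt.mpr h4
      simp [h2, h3, h4, h5]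
    · have h6 : sg w < K := not_le.mp h4
      simp [h2, h3, h4, h6]
  · simp [h2, h3]

/-- the `L¹` distance of the densities -/
noncomputable def D (d m : ℕ) (r : ℤ → ℤ) (k K : ℕ) : ℝ :=
  ∑ c ∈ Finset.range (m ^ K), |nu d m r K c - nu d m r k c / (m : ℝ) ^ (K - k)|

theorem D_triangle (hm : 0 < m) {k K' K : ℕ} (hk : k ≤ K') (hK : K' ≤ K) :
    D d m r k K ≤ D d m r K' K + D d m r k K' := by
  have h1 : D d m r k K' = ∑ X ∈ Finset.range (m ^ K),
      |nu d m r K' (X : ℕ) - nu d m r k (X : ℕ) / (m : ℝ) ^ (K' - k)| / (m : ℝ) ^ (K - K') := by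
    rw [sum_p_lift hm hK
      (fun X => |nu d m r K' (X : ℕ) - nu d m r k (X : ℕ) / (m : ℝ) ^ (K' - k)|)]
    · rfl
    · intro X
      rw [nu_per le_rfl, nu_per hk]
  rw [h1, D, D, ← Finset.sum_add_distrib]
  refine Finset.sum_le_sum fun X _ => ?_
  have hm0 : (0 : ℝ) < (m : ℝ) ^ (K - K') := by positivity
  have h2 : |nu d m r K' (X : ℕ) - nu d m r k (X : ℕ) / (m : ℝ) ^ (K' - k)| /
        (m : ℝ) ^ (K - K') =
      |nu d m r K' (X : ℕ) / (m : ℝ) ^ (K - K') - nu d m r k (X : ℕ) / (m : ℝ) ^ (K - k)| := by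
    have h3 : (m : ℝ) ^ (K - k) = (m : ℝ) ^ (K' - k) * (m : ℝ) ^ (K - K') := by
      rw [← pow_add]; congr 1; omega
    rw [h3, ← div_div, ← sub_div, abs_div, abs_of_pos hm0]
  rw [h2]
  exact abs_sub_le _ _ _

theorem small (t k : ℕ) (hk : 1 ≤ k) (ht : 10 * k ≤ t) : (9 / 10 : ℝ) ^ t ≤ 1 / k := by
  have hk0 : (0 : ℝ) < k := by exact_mod_cast hk
  have h1 : 1 + (t : ℝ) * (1 / 9) ≤ (1 + 1 / 9) ^ t :=
    one_add_mul_le_pow (by norm_num) t
  have h2 : (k : ℝ) ≤ (10 / 9) ^ t := by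
    have h3 : (10 * (k : ℝ)) ≤ t := by exact_mod_cast ht
    have h4 : (1 + 1 / 9 : ℝ) = 10 / 9 := by norm_num
    rw [h4] at h1
    linarith
  have h5 : (9 / 10 : ℝ) ^ t = 1 / (10 / 9) ^ t := by
    rw [← one_div_pow]
    norm_num
  rw [h5]
  exact one_div_le_one_div_of_le hk0 h2

theorem D_step (hd : 2 ≤ d) (hdm : d < m) (hco : Nat.Coprime m d) (hmix : Mixing d m r) :
    ∃ C : ℝ, 0 < C ∧ ∀ k K : ℕ, 1 ≤ k → k ≤ K → K ≤ k ^ 2 → D d m r k K ≤ C / k := by
  obtain ⟨C, hC, hmx⟩ := hmix 4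
  refine ⟨11 * C + 3, by positivity, ?_⟩
  intro k K hk hkK hKk
  have hm : 0 < m := by omega
  have hk0 : (0 : ℝ) < k := by exact_mod_cast hk
  have hk1 : (1 : ℝ) ≤ k := by exact_mod_cast hk
  set t : ℕ := 10 * K with ht
  obtain ⟨e, he⟩ := exists_e hco t
  have hKt : K ≤ t := by omega
  have hdt : (0 : ℝ) < (d : ℝ) ^ t := by
    have : 0 < d := by omega
    positivity
  have hmM : (0 : ℝ) < (m : ℝ) ^ (K - k) := by positivity
  -- the distance of the `nut`
  have hnut : ∑ c ∈ Finset.range (m ^ K),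
      |nut d m r t K (c : ℕ) - nut d m r t k (c : ℕ) / (m : ℝ) ^ (K - k)| ≤
        11 * C / k + (9 / 10) ^ t := by
    have h1 : ∀ c ∈ Finset.range (m ^ K),
        |nut d m r t K (c : ℕ) - nut d m r t k (c : ℕ) / (m : ℝ) ^ (K - k)| ≤
        (∑ S ∈ Finset.Icc K t, |p d m r e t S K c - p d m r e t S k c / (m : ℝ) ^ (K - k)| +
          q d m r e t k K c / (m : ℝ) ^ (K - k)) / (d : ℝ) ^ t := by
      intro c _
      rw [nut_K he hKt, nut_k he hkK hKt]
      have h2 : (∑ S ∈ Finset.Icc K t, p d m r e t S K c) / (d : ℝ) ^ t -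
          (∑ S ∈ Finset.Icc K t, p d m r e t S k c + q d m r e t k K c) / (d : ℝ) ^ t /
            (m : ℝ) ^ (K - k) =
          (∑ S ∈ Finset.Icc K t, (p d m r e t S K c - p d m r e t S k c / (m : ℝ) ^ (K - k)) -
            q d m r e t k K c / (m : ℝ) ^ (K - k)) / (d : ℝ) ^ t := by
        rw [Finset.sum_sub_distrib, ← Finset.sum_div]
        field_simp
        ring
      rw [h2, abs_div, abs_of_pos hdt]
      apply div_le_div_of_nonneg_right _ hdt.le
      refine (abs_sub _ _).trans ?_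
      rw [abs_of_nonneg (div_nonneg (q_nonneg e t k K c) hmM.le)]
      exact add_le_add (Finset.abs_sum_le_sum_abs _ _) le_rfl
    refine (Finset.sum_le_sum h1).trans ?_
    rw [← Finset.sum_div, Finset.sum_add_distrib, Finset.sum_comm]
    have h3 : ∑ S ∈ Finset.Icc K t, ∑ c ∈ Finset.range (m ^ K),
        |p d m r e t S K c - p d m r e t S k c / (m : ℝ) ^ (K - k)| ≤
          (11 * C / k) * (d : ℝ) ^ t := by
      have h4 : ∀ S ∈ Finset.Icc K t, ∑ c ∈ Finset.range (m ^ K),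
          |p d m r e t S K c - p d m r e t S k c / (m : ℝ) ^ (K - k)| ≤
            C * (d : ℝ) ^ t * (k : ℝ) ^ (-(4 : ℝ)) := by
        intro S hS
        rw [Finset.mem_Icc] at hS
        rw [← Osc_eq]
        exact hmx K k hk hkK e ((pow_dvd_pow _ hKt).trans he) t S hS.1
      refine (Finset.sum_le_card_nsmul _ _ _ h4).trans ?_
      rw [nsmul_eq_mul]
      have h5 : ((Finset.Icc K t).card : ℝ) ≤ 11 * (k : ℝ) ^ 2 := by
        have h6 : (Finset.Icc K t).card ≤ 11 * k ^ 2 := by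
          rw [Nat.card_Icc]
          have : 1 ≤ k ^ 2 := Nat.one_le_pow _ _ hk
          omega
        exact_mod_cast h6
      have h7 : (k : ℝ) ^ (-(4 : ℝ)) = 1 / (k : ℝ) ^ 4 := by
        rw [Real.rpow_neg hk0.le, one_div]
        congr 1
        exact_mod_cast Real.rpow_natCast (k : ℝ) 4
      rw [h7]
      calc ((Finset.Icc K t).card : ℝ) * (C * (d : ℝ) ^ t * (1 / (k : ℝ) ^ 4))
          ≤ 11 * (k : ℝ) ^ 2 * (C * (d : ℝ) ^ t * (1 / (k : ℝ) ^ 4)) :=
            mul_le_mul_of_nonneg_right h5 (by positivity)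
        _ = (11 * C * (d : ℝ) ^ t) * (1 / (k : ℝ) ^ 2) := by
            field_simp
        _ ≤ (11 * C * (d : ℝ) ^ t) * (1 / (k : ℝ)) := by
            apply mul_le_mul_of_nonneg_left _ (by positivity)
            apply one_div_le_one_div_of_le hk0
            nlinarith
        _ = (11 * C / k) * (d : ℝ) ^ t := by ring
    have h8 := sum_q_le (r := r) hd hm e hkK (by omega : 5 * K ≤ t)
    rw [div_le_iff₀ hdt]
    calc _ ≤ (11 * C / k) * (d : ℝ) ^ t + (d : ℝ) ^ t * (9 / 10) ^ t := add_le_add h3 h8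
      _ = _ := by ring
  -- the differences `nu - nut`
  have hK1 := sum_nu_sub_nut_le (r := r) hd hm hco (by omega : 5 * K ≤ t)
  have hk2 := sum_nu_sub_nut_le (r := r) hd hm hco (by omega : 5 * k ≤ t)
  have hk3 : ∑ c ∈ Finset.range (m ^ K),
      (nu d m r k (c : ℕ) - nut d m r t k (c : ℕ)) / (m : ℝ) ^ (K - k) ≤ (9 / 10) ^ t := by
    rw [sum_p_lift hm hkK (fun c => nu d m r k (c : ℕ) - nut d m r t k (c : ℕ))]
    · exact hk2
    · intro X
      rw [nu_per le_rfl, nut_per le_rfl]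
  have hfin : D d m r k K ≤ (11 * C / k + (9 / 10) ^ t) + (9 / 10) ^ t + (9 / 10) ^ t := by
    have h1 : ∀ c ∈ Finset.range (m ^ K),
        |nu d m r K (c : ℕ) - nu d m r k (c : ℕ) / (m : ℝ) ^ (K - k)| ≤
        |nut d m r t K (c : ℕ) - nut d m r t k (c : ℕ) / (m : ℝ) ^ (K - k)| +
          (nu d m r K (c : ℕ) - nut d m r t K (c : ℕ)) +
          (nu d m r k (c : ℕ) - nut d m r t k (c : ℕ)) / (m : ℝ) ^ (K - k) := by
      intro c _
      have h2 := nut_le_nu (d := d) (m := m) (r := r) t K (c : ℤ)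
      have h3 := nut_le_nu (d := d) (m := m) (r := r) t k (c : ℤ)
      have h4 : 0 ≤ (nu d m r k (c : ℤ) - nut d m r t k (c : ℤ)) / (m : ℝ) ^ (K - k) :=
        div_nonneg (by linarith) hmM.le
      have h5 : nu d m r K (c : ℤ) - nu d m r k (c : ℤ) / (m : ℝ) ^ (K - k) =
          (nut d m r t K (c : ℤ) - nut d m r t k (c : ℤ) / (m : ℝ) ^ (K - k)) +
          (nu d m r K (c : ℤ) - nut d m r t K (c : ℤ)) -
          (nu d m r k (c : ℤ) - nut d m r t k (c : ℤ)) / (m : ℝ) ^ (K - k) := by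
        rw [sub_div]
        ring
      rw [h5]
      have h6 := abs_nonneg (nut d m r t K (c : ℤ) - nut d m r t k (c : ℤ) / (m : ℝ) ^ (K - k))
      rw [abs_le]
      constructor
      · have := neg_abs_le (nut d m r t K (c : ℤ) - nut d m r t k (c : ℤ) / (m : ℝ) ^ (K - k))
        linarith
      · have := le_abs_self (nut d m r t K (c : ℤ) - nut d m r t k (c : ℤ) / (m : ℝ) ^ (K - k))
        linarith
    rw [D]
    refine (Finset.sum_le_sum h1).trans ?_
    rw [Finset.sum_add_distrib, Finset.sum_add_distrib]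
    exact add_le_add (add_le_add hnut hK1) hk3
  have hsm := small t k hk (by omega)
  refine hfin.trans ?_
  have : (11 * C + 3) / (k : ℝ) = 11 * C / k + 3 * (1 / k) := by ring
  rw [this]
  linarith

theorem D_le (hd : 2 ≤ d) (hdm : d < m) (hco : Nat.Coprime m d) (hmix : Mixing d m r) :
    ∃ C : ℝ, 0 < C ∧ ∀ k K : ℕ, 2 ≤ k → k ≤ K → D d m r k K ≤ C / k := by
  obtain ⟨C, hC, hstep⟩ := D_step hd hdm hco hmix
  have hm : 0 < m := by omega
  refine ⟨2 * C, by positivity, ?_⟩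
  have key : ∀ n k K : ℕ, K - k = n → 2 ≤ k → k ≤ K → D d m r k K ≤ 2 * C / k := by
    intro n
    induction n using Nat.strong_induction_on with
    | _ n ih =>
    intro k K hn hk hkK
    have hk0 : (0 : ℝ) < k := by
      have : 0 < k := by omega
      exact_mod_cast this
    have hk2 : (2 : ℝ) ≤ k := by exact_mod_cast hk
    by_cases hK : K ≤ k ^ 2
    · refine (hstep k K (by omega) hkK hK).trans ?_
      apply div_le_div_of_nonneg_right _ hk0.le
      linarith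
    · push Not at hK
      have hkk : k < k ^ 2 := by nlinarith
      have h1 := ih (K - k ^ 2) (by omega) (k ^ 2) K rfl (by omega) hK.le
      have h2 := hstep k (k ^ 2) (by omega) hkk.le le_rfl
      refine (D_triangle hm hkk.le hK.le).trans ?_
      have h3 : 2 * C / ((k ^ 2 : ℕ) : ℝ) ≤ C / k := by
        push_cast
        rw [div_le_div_iff₀ (by positivity) hk0]
        nlinarith [mul_pos hC hk0]
      have h4 : 2 * C / (k : ℝ) = C / k + C / k := by ring
      rw [h4]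
      exact add_le_add (h1.trans h3) h2
  intro k K hk hkK
  exact key (K - k) k K rfl hk hkK

end NUb

end Pool.Agent.Helper30.PP
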