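import Pool.Agent.Helper30.PP.NUb2
import Pool.Agent.Helper8.POS.BdA
import Pool.Agent.Helper52.Tao.C2
import Pool.Agent.Helper91.PL.DT
import Pool.Agent.Helper34.PT.Defs
import Pool.Agent.Helper28.POSB.Inv

/-!
# Uniform integrability of the densities of the limit law, with a power

`∑_{Y < m^l, C δ^{-A} < m^l ν_l(Y)} ν_l(Y) ≤ δ` for `l` large. Let `k ~ C / δ`. The densities at the levels `l ≥ k` are `C / k`-close
to the density at the level `k` (`NUb.D_le`); the density at the level `k` is `(9 / 10) ^ t`-close to the density `nut` of the words of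
length `t = 10 k`. The words `w` with `|Off w| ≤ V d ^ t` contribute at most `(t + 1) (2 V + 1) / m ^ k` to `nut Y`, since `Off` is
injective on the words with `s` non-zero digits and the offsets are in one class modulo `m ^ k`; the other words have the proportion
`≤ C V ^ (-κ)` (`off_tail`); `V = B k ^ (1 / κ)`.
-/

set_option autoImplicit false

namespace Pool.Agent.Helper30.PP

open Filter Topology
open Pool.Agent.Helper68.Moeller Pool.Agent.Helper52.Tao Pool.Agent.Helper8.ND Pool.Agent.Helper8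
  Pool.Agent.Helper91 Pool.Agent.Helper91.PL Pool.Agent.Helper28

variable {d m : ℕ} {r : ℤ → ℤ}

/-- The words with a bounded offset which hit one class. -/
theorem small_off (hd : 2 ≤ d) (hm : 1 ≤ m) (hco : Nat.Coprime m d) (hr : Admissible d m r) {t k : ℕ} {V : ℝ}
    (hV : 0 ≤ V) (hmk : (m : ℝ) ^ k ≤ (d : ℝ) ^ t) (Y : ℤ) :
    cW d t (fun w => |(Off d m r w : ℝ)| ≤ V * (d : ℝ) ^ t ∧ k ≤ sg w ∧ Hit d m r k Y w) ≤
      ((t : ℝ) + 1) * (2 * V + 1) * ((d : ℝ) ^ t / (m : ℝ) ^ k) := by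
  classical
  have hm0 : (0 : ℝ) < m := by exact_mod_cast hm
  have hd0 : (0 : ℝ) < d := by exact_mod_cast (by omega : 0 < d)
  have hmk0 : (0 : ℝ) < (m : ℝ) ^ k := by positivity
  have hdt0 : (0 : ℝ) < (d : ℝ) ^ t := by positivity
  obtain ⟨A, hA⟩ : ∃ A : Finset (List ℕ), A = (W d t).filter
    (fun w => |(Off d m r w : ℝ)| ≤ V * (d : ℝ) ^ t ∧ k ≤ sg w ∧ Hit d m r k Y w) := ⟨_, rfl⟩
  have hAm : ∀ w, w ∈ A ↔ w ∈ W d t ∧ |(Off d m r w : ℝ)| ≤ V * (d : ℝ) ^ t ∧ k ≤ sg w ∧ Hit d m r k Y w := by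
    intro w
    rw [hA, Finset.mem_filter]
  have h1 : cW d t (fun w => |(Off d m r w : ℝ)| ≤ V * (d : ℝ) ^ t ∧ k ≤ sg w ∧ Hit d m r k Y w) = (A.card : ℝ) := by
    rw [hA]
    unfold cW
    congr!
  rw [h1]
  have hmaps : ∀ w ∈ A, sg w ∈ Finset.range (t + 1) := by
    intro w hw
    have h2 := sg_le_length w
    rw [length_of_mem_W ((hAm w).1 hw).1] at h2
    rw [Finset.mem_range]
    omega
  rw [Finset.card_eq_sum_card_fiberwise (t := Finset.range (t + 1)) (f := sg) hmaps]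
  push_cast
  have h3 : ∀ s ∈ Finset.range (t + 1), ((A.filter (fun w => sg w = s)).card : ℝ) ≤
      (2 * V + 1) * ((d : ℝ) ^ t / (m : ℝ) ^ k) := by
    intro s _
    have hinj : Set.InjOn (Off d m r) ((A.filter (fun w => sg w = s) : Finset (List ℕ)) : Set (List ℕ)) := by
      intro u hu w hw ho
      rw [Finset.mem_coe, Finset.mem_filter] at hu hw
      exact Off_inj hd hco hr ((hAm u).1 hu.1).1 ((hAm w).1 hw.1).1 (hu.2.trans hw.2.symm) ho
    rw [← Finset.card_image_of_injOn hinj]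
    have h4 := POS.card_class_le ((A.filter (fun w => sg w = s)).image (Off d m r)) (M := m ^ k)
      (Nat.one_le_pow _ _ hm) (K := V * (d : ℝ) ^ t) (by positivity) (by
        intro z hz
        obtain ⟨w, hw, rfl⟩ := Finset.mem_image.1 hz
        exact ((hAm w).1 (Finset.mem_filter.1 hw).1).2.1) (by
        intro z hz z' hz'
        obtain ⟨w, hw, rfl⟩ := Finset.mem_image.1 hz
        obtain ⟨w', hw', rfl⟩ := Finset.mem_image.1 hz'
        obtain ⟨a1, -, -, a2⟩ := (hAm w).1 (Finset.mem_filter.1 hw).1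
        obtain ⟨b1, -, -, b2⟩ := (hAm w').1 (Finset.mem_filter.1 hw').1
        unfold Hit at a2 b2
        rw [length_of_mem_W a1] at a2
        rw [length_of_mem_W b1] at b2
        have e1 := _root_.dvd_sub a2 b2
        rw [add_sub_add_left_eq_sub] at e1
        push_cast
        exact e1)
    refine h4.trans ?_
    push_cast
    have h5 : 1 ≤ (d : ℝ) ^ t / (m : ℝ) ^ k := by
      rw [le_div_iff₀ hmk0, one_mul]
      exact hmk
    have h6 : 2 * (V * (d : ℝ) ^ t) / (m : ℝ) ^ k = 2 * V * ((d : ℝ) ^ t / (m : ℝ) ^ k) := by ring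
    rw [h6]
    linarith
  refine (Finset.sum_le_sum h3).trans (le_of_eq ?_)
  rw [Finset.sum_const, Finset.card_range, nsmul_eq_mul]
  push_cast
  ring

/-- The tail of the density of the words of length `t`. -/
theorem nut_tail (hd : 2 ≤ d) (hm : 1 ≤ m) (hco : Nat.Coprime m d) (hr : Admissible d m r) {t k : ℕ} {V K : ℝ}
    (hV : 0 ≤ V) (hmk : (m : ℝ) ^ k ≤ (d : ℝ) ^ t) (hK : 2 * (((t : ℝ) + 1) * (2 * V + 1)) ≤ K) :
    (∑ Y ∈ Finset.range (m ^ k), if K < (m : ℝ) ^ k * nut d m r t k Y then nut d m r t k Y else 0) ≤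
      2 * (cW d t (fun w => V * (d : ℝ) ^ t < |(Off d m r w : ℝ)|) / (d : ℝ) ^ t) := by
  have hm0 : (0 : ℝ) < m := by exact_mod_cast hm
  have hd0 : (0 : ℝ) < d := by exact_mod_cast (by omega : 0 < d)
  have hmk0 : (0 : ℝ) < (m : ℝ) ^ k := by positivity
  have hdt0 : (0 : ℝ) < (d : ℝ) ^ t := by positivity
  have h1 : ∀ Y ∈ Finset.range (m ^ k), (if K < (m : ℝ) ^ k * nut d m r t k Y then nut d m r t k Y else 0) ≤
      2 * (cW d t (fun w => V * (d : ℝ) ^ t < |(Off d m r w : ℝ)| ∧ Hit d m r k (Y : ℤ) w) / (d : ℝ) ^ t) := by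
    intro Y _
    have hb0 := cW_nonneg d t (fun w => V * (d : ℝ) ^ t < |(Off d m r w : ℝ)| ∧ Hit d m r k (Y : ℤ) w)
    obtain ⟨b, hb⟩ : ∃ b : ℝ, b = cW d t (fun w => V * (d : ℝ) ^ t < |(Off d m r w : ℝ)| ∧ Hit d m r k (Y : ℤ) w) / (d : ℝ) ^ t :=
      ⟨_, rfl⟩
    have hb1 : 0 ≤ b := by rw [hb]; positivity
    rw [← hb]
    split_ifs with hY
    · have h2 := small_off hd hm hco hr hV hmk (Y : ℤ)
      have h3 : nut d m r t k Y ≤ ((t : ℝ) + 1) * (2 * V + 1) / (m : ℝ) ^ k + b := by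
        unfold nut
        rw [hb, div_le_iff₀ hdt0]
        have h4 : cW d t (fun w => k ≤ sg w ∧ Hit d m r k (Y : ℤ) w) ≤
            cW d t (fun w => |(Off d m r w : ℝ)| ≤ V * (d : ℝ) ^ t ∧ k ≤ sg w ∧ Hit d m r k (Y : ℤ) w) +
            cW d t (fun w => V * (d : ℝ) ^ t < |(Off d m r w : ℝ)| ∧ Hit d m r k (Y : ℤ) w) := by
          refine le_trans (cW_mono fun w _ hw => ?_) (cW_or_le _ _ _ _)
          rcases le_or_gt |(Off d m r w : ℝ)| (V * (d : ℝ) ^ t) with h | h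
          · exact Or.inl ⟨h, hw⟩
          · exact Or.inr ⟨h, hw.2⟩
        refine h4.trans ((add_le_add_left h2 _).trans (le_of_eq ?_))
        field_simp
      have h5 : ((t : ℝ) + 1) * (2 * V + 1) / (m : ℝ) ^ k ≤ nut d m r t k Y / 2 := by
        rw [div_le_iff₀ hmk0]
        linarith
      linarith
    · linarith
  refine (Finset.sum_le_sum h1).trans ?_
  rw [← Finset.mul_sum, ← Finset.sum_div]
  refine mul_le_mul_of_nonneg_left (div_le_div_of_nonneg_right ?_ hdt0.le) (by norm_num)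
  exact dt_sum_hit_le (d := d) (m := m) (r := r) hco t k (fun w => V * (d : ℝ) ^ t < |(Off d m r w : ℝ)|)

/-- From `nut` to `nu`. -/
theorem nu_tail (hd : 2 ≤ d) (hm : 1 ≤ m) (hco : Nat.Coprime m d) {t k : ℕ} (htk : 5 * k ≤ t) (K : ℝ) :
    (∑ Y ∈ Finset.range (m ^ k), if K < (m : ℝ) ^ k * nu d m r k Y then nu d m r k Y else 0) ≤
      2 * (9 / 10) ^ t + ∑ Y ∈ Finset.range (m ^ k), if K / 2 < (m : ℝ) ^ k * nut d m r t k Y then nut d m r t k Y else 0 := by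
  have hm0 : (0 : ℝ) < m := by exact_mod_cast hm
  have hmk0 : (0 : ℝ) < (m : ℝ) ^ k := by positivity
  have h1 := sum_nu_sub_nut_le (r := r) hd hm hco htk
  refine le_trans ?_ (add_le_add_left (mul_le_mul_of_nonneg_left h1 (by norm_num : (0 : ℝ) ≤ 2)) _)
  rw [Finset.mul_sum, ← Finset.sum_add_distrib]
  refine Finset.sum_le_sum fun Y _ => ?_
  have h2 := nut_le_nu (d := d) (m := m) (r := r) t k (Y : ℤ)
  have h3 := nut_nonneg (d := d) (m := m) (r := r) t k (Y : ℤ)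
  split_ifs with c1 c2 c2
  · linarith
  · have h4 : (m : ℝ) ^ k * nut d m r t k Y ≤ K / 2 := not_lt.1 c2
    have h5 : (m : ℝ) ^ k * nut d m r t k Y < (m : ℝ) ^ k * (nu d m r k Y / 2) := by linarith
    have h6 := lt_of_mul_lt_mul_left h5 hmk0.le
    linarith
  · linarith
  · linarith

/-- From the level `k` to the level `l`. -/
theorem nu_lift (hm : 1 ≤ m) {k l : ℕ} (hkl : k ≤ l) (K : ℝ) :
    (∑ Y ∈ Finset.range (m ^ l), if K < (m : ℝ) ^ l * nu d m r l Y then nu d m r l Y else 0) ≤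
      2 * (∑ Y ∈ Finset.range (m ^ l), |nu d m r l Y - nu d m r k Y / (m : ℝ) ^ (l - k)|) +
        ∑ Y ∈ Finset.range (m ^ k), if K / 2 < (m : ℝ) ^ k * nu d m r k Y then nu d m r k Y else 0 := by
  have hm0 : (0 : ℝ) < m := by exact_mod_cast hm
  have hA0 : (0 : ℝ) < (m : ℝ) ^ (l - k) := by positivity
  have hml : (m : ℝ) ^ l = (m : ℝ) ^ k * (m : ℝ) ^ (l - k) := by
    rw [← pow_add]
    congr 1
    omega
  have hlift := MX2.sum_p_lift (m := m) (by omega) hkl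
    (fun Y : ℕ => if K / 2 < (m : ℝ) ^ k * nu d m r k (Y : ℤ) then nu d m r k (Y : ℤ) else 0)
    (fun X => by simp only [NUb.nu_per (d := d) (r := r) le_rfl])
  rw [← hlift, Finset.mul_sum, ← Finset.sum_add_distrib]
  refine Finset.sum_le_sum fun Y _ => ?_
  obtain ⟨v, hv⟩ : ∃ v : ℝ, v = nu d m r l (Y : ℤ) := ⟨_, rfl⟩
  obtain ⟨u, hu⟩ : ∃ u : ℝ, u = nu d m r k (Y : ℤ) := ⟨_, rfl⟩
  have hu0 : 0 ≤ u := by rw [hu]; exact nu_nonneg _ _
  rw [← hv, ← hu]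
  obtain ⟨a, ha⟩ : ∃ a : ℝ, a = u / (m : ℝ) ^ (l - k) := ⟨_, rfl⟩
  have hua : u = a * (m : ℝ) ^ (l - k) := by rw [ha]; field_simp
  have ha0 : 0 ≤ a := by rw [ha]; positivity
  have e1 := le_abs_self (v - a)
  have e2 := abs_nonneg (v - a)
  rw [← ha]
  split_ifs with c1 c2 c2
  · rw [← ha]
    linarith
  · rw [zero_div]
    have h4 : (m : ℝ) ^ k * u ≤ K / 2 := not_lt.1 c2
    rw [hua] at h4
    have h5 : (m : ℝ) ^ l * a < (m : ℝ) ^ l * (v / 2) := by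
      have : (m : ℝ) ^ l * a = (m : ℝ) ^ k * (a * (m : ℝ) ^ (l - k)) := by rw [hml]; ring
      rw [this]
      linarith
    have h6 := lt_of_mul_lt_mul_left h5 (by positivity)
    linarith
  · rw [← ha]
    linarith
  · rw [zero_div]
    linarith

/-- **Uniform integrability with a power.** -/
theorem uiPoly (h : POSB.Std d m r) : Pool.Agent.Helper34.PT.UiPoly d m r := by
  have hd := h.hd
  have hdm := h.hdm
  have hm : 1 ≤ m := by omega
  have hdR : (2 : ℝ) ≤ d := by exact_mod_cast hd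
  -- `m ≤ d ^ 2`
  have hm2 : (m : ℝ) ≤ (d : ℝ) ^ 2 := by
    refine h.hw.trans ?_
    rw [← Real.rpow_natCast]
    refine Real.rpow_le_rpow_of_exponent_le (by linarith) ?_
    rw [div_le_iff₀ (by linarith)]
    push_cast
    linarith
  obtain ⟨B, hB1, hB⟩ : ∃ B : ℕ, 1 ≤ B ∧ ∀ j : ℤ, 0 < j → j < (d : ℤ) → |r j| ≤ B := by
    refine ⟨∑ j ∈ Finset.range d, (r j).natAbs + 1, by omega, fun j h0 h1 => ?_⟩
    have h2 : (r ((j.toNat : ℕ) : ℤ)).natAbs ≤ ∑ j ∈ Finset.range d, (r j).natAbs :=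
      Finset.single_le_sum (f := fun j : ℕ => (r (j : ℤ)).natAbs) (fun _ _ => Nat.zero_le _) (Finset.mem_range.2 (by omega))
    rw [Int.toNat_of_nonneg h0.le] at h2
    rw [Int.abs_eq_natAbs]
    exact_mod_cast h2.trans (Nat.le_succ _)
  obtain ⟨κ, C0, hκ, hC0, hoff⟩ := off_tail hd hdm h.hco h.hw hB1 hB
  obtain ⟨C1, hC1, hD⟩ := NUb.D_le (r := r) hd hdm h.hco h.mix
  have hBR : (1 : ℝ) ≤ B := by exact_mod_cast hB1
  obtain ⟨Cs, hCs⟩ : ∃ Cs : ℝ, Cs = 2 * C1 + 2 + 2 * C0 := ⟨_, rfl⟩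
  have hCs0 : 0 < Cs := by rw [hCs]; positivity
  refine ⟨⌈1 / κ⌉₊ + 1, 88 * (2 * B + 1) * (Cs + 2) ^ (⌈1 / κ⌉₊ + 1), by positivity, fun δ hδ hδ1 => ?_⟩
  obtain ⟨k, hk⟩ : ∃ k : ℕ, k = max 2 ⌈Cs / δ⌉₊ := ⟨_, rfl⟩
  have hk2 : 2 ≤ k := by rw [hk]; exact le_max_left _ _
  have hkR : (2 : ℝ) ≤ k := by exact_mod_cast hk2
  have hk1 : (1 : ℝ) ≤ k := by linarith
  have hkC : Cs / δ ≤ k := by
    refine (Nat.le_ceil _).trans ?_
    rw [hk]
    exact_mod_cast le_max_right _ _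
  have hkU : (k : ℝ) ≤ (Cs + 2) / δ := by
    have h1 : ((⌈Cs / δ⌉₊ : ℕ) : ℝ) ≤ Cs / δ + 1 := (Nat.ceil_lt_add_one (by positivity)).le
    have h2 : (k : ℝ) ≤ max 2 (Cs / δ + 1) := by
      rw [hk]
      push_cast
      exact max_le_max le_rfl h1
    refine h2.trans ?_
    have h3 : 1 ≤ 1 / δ := by rw [le_div_iff₀ hδ]; linarith
    have h4 : (Cs + 2) / δ = Cs / δ + 2 * (1 / δ) := by ring
    rw [h4]
    have h5 : 0 < Cs / δ := by positivity
    exact max_le (by linarith) (by linarith)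
  refine ⟨k, fun l hl => ?_⟩
  obtain ⟨V, hV⟩ : ∃ V : ℝ, V = B * (k : ℝ) ^ (1 / κ) := ⟨_, rfl⟩
  have hΛ : 1 ≤ (k : ℝ) ^ (1 / κ) := Real.one_le_rpow hk1 (by positivity)
  have hV0 : 0 ≤ V := by rw [hV]; positivity
  obtain ⟨K, hK⟩ : ∃ K : ℝ, K = 8 * ((((10 * k : ℕ) : ℝ) + 1) * (2 * V + 1)) := ⟨_, rfl⟩
  -- the threshold
  have hKle : K ≤ 88 * (2 * B + 1) * (Cs + 2) ^ (⌈1 / κ⌉₊ + 1) / δ ^ (⌈1 / κ⌉₊ + 1) := by
    have h1 : (k : ℝ) ^ (1 / κ) ≤ (k : ℝ) ^ ⌈1 / κ⌉₊ := by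
      rw [← Real.rpow_natCast]
      exact Real.rpow_le_rpow_of_exponent_le hk1 (Nat.le_ceil _)
    have h2 : 2 * V + 1 ≤ (2 * B + 1) * (k : ℝ) ^ ⌈1 / κ⌉₊ := by
      have h3 : (1 : ℝ) ≤ (k : ℝ) ^ ⌈1 / κ⌉₊ := one_le_pow₀ hk1
      have h4 : (B : ℝ) * (k : ℝ) ^ (1 / κ) ≤ B * (k : ℝ) ^ ⌈1 / κ⌉₊ := mul_le_mul_of_nonneg_left h1 (by positivity)
      rw [hV, add_mul]
      linarith
    have h3 : ((10 * k : ℕ) : ℝ) + 1 ≤ 11 * k := by push_cast; linarith
    calc K ≤ 8 * (11 * k * ((2 * B + 1) * (k : ℝ) ^ ⌈1 / κ⌉₊)) := by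
          rw [hK]
          refine mul_le_mul_of_nonneg_left ?_ (by norm_num)
          exact mul_le_mul h3 h2 (by positivity) (by positivity)
      _ = 88 * (2 * B + 1) * (k : ℝ) ^ (⌈1 / κ⌉₊ + 1) := by rw [pow_succ]; ring
      _ ≤ 88 * (2 * B + 1) * ((Cs + 2) / δ) ^ (⌈1 / κ⌉₊ + 1) := by
          refine mul_le_mul_of_nonneg_left ?_ (by positivity)
          exact pow_le_pow_left₀ (by positivity) hkU _
      _ = _ := by rw [div_pow]; ring
  have hmono : (∑ Y ∈ Finset.range (m ^ l), if 88 * (2 * (B : ℝ) + 1) * (Cs + 2) ^ (⌈1 / κ⌉₊ + 1) / δ ^ (⌈1 / κ⌉₊ + 1) <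
      (m : ℝ) ^ l * nu d m r l Y then nu d m r l Y else 0) ≤
      ∑ Y ∈ Finset.range (m ^ l), if K < (m : ℝ) ^ l * nu d m r l Y then nu d m r l Y else 0 := by
    refine Finset.sum_le_sum fun Y _ => ?_
    have h1 := nu_nonneg (d := d) (m := m) (r := r) l (Y : ℤ)
    split_ifs with c1 c2 c2
    · exact le_rfl
    · exact absurd (lt_of_le_of_lt hKle c1) c2
    · exact h1
    · exact le_rfl
  refine hmono.trans ((nu_lift hm hl K).trans ?_)
  have g1 := hD k l hk2 hl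
  have g2 := nu_tail (r := r) hd hm h.hco (t := 10 * k) (k := k) (by omega) (K / 2)
  have hmk : (m : ℝ) ^ k ≤ (d : ℝ) ^ (10 * k) := by
    rw [pow_mul]
    refine pow_le_pow_left₀ (by positivity) (hm2.trans ?_) k
    exact pow_le_pow_right₀ (by linarith) (by norm_num)
  have g3 := nut_tail (r := r) hd hm h.hco h.hr (t := 10 * k) (k := k) (V := V) (K := K / 2 / 2) hV0 hmk (by
    rw [hK]
    linarith)
  have hdt : (0 : ℝ) < (d : ℝ) ^ (10 * k) := by positivity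
  have g4 : cW d (10 * k) (fun w => V * (d : ℝ) ^ (10 * k) < |(Off d m r w : ℝ)|) / (d : ℝ) ^ (10 * k) ≤ C0 * (1 / k) := by
    have h1 := hoff (10 * k) ((k : ℝ) ^ (1 / κ)) hΛ
    rw [← hV] at h1
    rw [div_le_iff₀ hdt]
    refine h1.trans (le_of_eq ?_)
    have h2 : ((k : ℝ) ^ (1 / κ)) ^ (-κ) = 1 / k := by
      rw [← Real.rpow_mul (by positivity)]
      have : 1 / κ * -κ = -1 := by field_simp
      rw [this, Real.rpow_neg_one, one_div]
    rw [h2]
    ring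
  have g5 := NUb.small (10 * k) k (by omega) le_rfl
  unfold NUb.D at g1
  have g6 : Cs * (1 / k) ≤ δ := by
    rw [div_le_iff₀ hδ] at hkC
    rw [mul_one_div, div_le_iff₀ (by linarith)]
    linarith
  have g7 : C1 / (k : ℝ) = C1 * (1 / k) := by ring
  rw [hCs] at g6
  rw [g7] at g1
  linarith

end Pool.Agent.Helper30.PP
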